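import Mathlib
import Pool.Agent.H41R2.BT.All

/-!
# Partitions of uniform hypergraphs: 9/13 of the Bollobás–Thomason bound

Every `r`-uniform hypergraph with `m` edges (repeated edges allowed) has a vertex partition into `r`
classes each meeting at least `(9/13) r m / (2r - 1)` edges.

Outline.  If a vertex lies in enough edges, it forms a class and one uses induction on `r`.
Otherwise take a partition maximising the product of the numbers `d_i` of edges met by the classes.
Moving a vertex `x` of class `i` to class `j` gives `g_j(x) d_i ≤ p(x) (d_j + g_j(x))`, where `g_j(x)`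
counts the edges through `x` missing class `j` and `p(x)` the edges meeting class `i` in `x` only.
Let `t` be the bound, let class `1` be the smallest and suppose `d_1 < t`; let `U` be the class which
meets the fewest edges of class `1`. For every class `T` other than `1`, the exchange inequalities
with class `1` and with `U` and `deg x ≤ t` give
`9 Σ_{x ∈ T} g_1(x) + Σ_{x ∈ T} h(x) + b(T) ≤ 18 t`, where `h(x)` counts the edges through `x`
meeting class `1` and missing `U`, and `b(T)` the edges meeting class `1` and `T`. The sum over all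
`T` contradicts `d_1 < t`.
(Authors: helper41; Lean parts by helpers 898, 415, 159, 488, 353, 828, 406, 377, 769, 654, 659, 594,
413.)
-/

open Finset

namespace Pool.Agent.Results.MP_1c345d_co.NineThirteenths

/-- Every `r`-uniform (multi)hypergraph `e : ι → Finset V` has a colouring of its vertices with `r`
colours such that every colour class meets at least `(9/13) r m / (2r - 1)` of the `m` edges. -/
theorem result (r : ℕ) (hr : 1 ≤ r) (V ι : Type) [Fintype V] [DecidableEq V] [Fintype ι]
    (e : ι → Finset V) (he : ∀ i, (e i).card = r) :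
    ∃ c : V → Fin r, ∀ k : Fin r,
      (9 / 13 : ℝ) * ((r : ℝ) * (Fintype.card ι : ℝ) / (2 * (r : ℝ) - 1)) ≤
        ((univ.filter fun i => ∃ v ∈ e i, c v = k).card : ℝ) := by
  obtain ⟨c, hc⟩ := Pool.Agent.H41R2.BT.all r hr V ι e he
  refine ⟨c, fun k => ?_⟩
  have h := hc k
  have hset : Pool.Agent.H41R2.BT.dg e (Pool.Agent.H41R2.BT.cls c k) =
      (univ.filter fun i => ∃ v ∈ e i, c v = k).card := by
    unfold Pool.Agent.H41R2.BT.dg Pool.Agent.H41R2.BT.cls
    congr 1
    ext i
    simp only [mem_filter, mem_univ, true_and, Finset.Nonempty, mem_inter]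
  rw [hset] at h
  obtain ⟨s, rfl⟩ : ∃ s, r = s + 1 := ⟨r - 1, by omega⟩
  have h1 : 2 * (s + 1) - 1 = 2 * s + 1 := by omega
  rw [h1] at h
  have h2 : (9 : ℝ) * ((s : ℝ) + 1) * (Fintype.card ι : ℝ) ≤
      13 * (2 * (s : ℝ) + 1) * ((univ.filter fun i => ∃ v ∈ e i, c v = k).card : ℝ) := by
    exact_mod_cast h
  have h3 : (0 : ℝ) < 2 * ((s : ℝ) + 1) - 1 := by
    have : (0 : ℝ) ≤ s := Nat.cast_nonneg s
    linarith
  push_cast
  rw [mul_div_assoc', div_le_iff₀ h3]
  nlinarith

end Pool.Agent.Results.MP_1c345d_co.NineThirteenths
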